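import Pool.Agent.Helper12.MA.StA
import Pool.Agent.Helper12.MA.Lib

/-!
# Project MA: module FUE
-/

set_option autoImplicit false

namespace Pool.Agent.Helper4.MA

open Pool.Agent.Helper12.MA
open Pool.Agent.Helper51.AJ (IsMinor Planar Apex ExMinor Con Tch)
open Pool.Agent.Helper12.NK (rst Kc add cnt Pcy IsFace Cof plus)

private theorem key {V : Type} [Finite V] (M : SimpleGraph V) (U : Set V) (u x y : V) (hP : Pn M U) (hu : u ∈ U)
    (hx : x ∈ U) (hux : u ≠ x) (huy : u ≠ y) (hxy : x ≠ y)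
    (Φ₁ Φ₂ : {F : Set V // IsFace M U F}) (h1u : u ∈ Φ₁.1) (h1x : x ∈ Φ₁.1) (h2u : u ∈ Φ₂.1) (h2y : y ∈ Φ₂.1)
    (N : Set V) (S : Set (V ⊕ {F : Set V // IsFace M U F}))
    (hS : N = ∅ ∨ ∃ F : {F : Set V // IsFace M U F}, S = {Sum.inr F} ∧ F.1 = N ∧ u ∉ F.1) :
    Planar (add (rst (ae M x y) (U \ {u})) u N) := by
  classical
  have hpl : Planar (plus M U) := nPLS V M U hP.1 hP.2
  let f : V → Set (V ⊕ {F : Set V // IsFace M U F}) := fun a =>
    if a = u then S else if a = x then ({Sum.inl x, Sum.inr Φ₁} ∪ {Sum.inl u, Sum.inr Φ₂}) else {Sum.inl a}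
  have fu : f u = S := if_pos rfl
  have fx : f x = {Sum.inl x, Sum.inr Φ₁} ∪ {Sum.inl u, Sum.inr Φ₂} := by
    change (if x = u then S else if x = x then _ else _) = _
    rw [if_neg (Ne.symm hux), if_pos rfl]
  have fo : ∀ a, a ≠ u → a ≠ x → f a = {Sum.inl a} := by
    intro a h1 h2
    change (if a = u then S else if a = x then _ else _) = _
    rw [if_neg h1, if_neg h2]
  have hil : ∀ a, a ≠ u → Sum.inl a ∈ f a := by
    intro a ha
    by_cases hax : a = x
    · subst hax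
      rw [fx]
      exact Or.inl (Or.inl rfl)
    · rw [fo a ha hax]
      exact rfl
  have hadju : ∀ a', (add (rst (ae M x y) (U \ {u})) u N).Adj u a' → a' ∈ N := by
    intro a' h
    rcases h with ⟨_, h, _⟩ | ⟨_, h1, _⟩ | ⟨_, _, h3⟩
    · exact absurd rfl h.2
    · exact h1
    · exact absurd rfl h3
  have hSN : ∀ a', a' ∈ N → ∃ F : {F : Set V // IsFace M U F}, S = {Sum.inr F} ∧ F.1 = N ∧ u ∉ F.1 := by
    intro a' ha'
    rcases hS with h | h
    · rw [h] at ha'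
      exact absurd ha' (Set.notMem_empty a')
    · exact h
  have hmem : ∀ a a', (add (rst (ae M x y) (U \ {u})) u N).Adj a a' → ∀ z ∈ f a,
      (a ≠ u ∧ z = Sum.inl a) ∨ (a = x ∧ (z = Sum.inr Φ₁ ∨ z = Sum.inl u ∨ z = Sum.inr Φ₂)) ∨
        (a = u ∧ ∃ F : {F : Set V // IsFace M U F}, z = Sum.inr F ∧ u ∉ F.1) := by
    intro a a' h z hz
    by_cases hau : a = u
    · subst hau
      obtain ⟨F, hF, _, hF2⟩ := hSN a' (hadju a' h)
      rw [fu, hF] at hz
      exact Or.inr (Or.inr ⟨rfl, F, hz, hF2⟩)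
    · by_cases hax : a = x
      · subst hax
        rw [fx] at hz
        rcases hz with (hz | hz) | (hz | hz)
        · exact Or.inl ⟨hau, hz⟩
        · exact Or.inr (Or.inl ⟨rfl, Or.inl hz⟩)
        · exact Or.inr (Or.inl ⟨rfl, Or.inr (Or.inl hz)⟩)
        · exact Or.inr (Or.inl ⟨rfl, Or.inr (Or.inr hz)⟩)
      · rw [fo a hau hax] at hz
        exact Or.inl ⟨hau, hz⟩
  refine nPTR V _ (add (rst (ae M x y) (U \ {u})) u N) (plus M U) f ?_ ?_ ?_ hpl
  · intro a a' h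
    by_cases hau : a = u
    · subst hau
      obtain ⟨F, hF, _, _⟩ := hSN a' (hadju a' h)
      rw [fu, hF]
      exact Pool.Agent.Helper51.AJ.con_singleton _ _
    · by_cases hax : a = x
      · subst hax
        rw [fx]
        refine Pool.Agent.Helper51.AJ.con_union (Pool.Agent.Helper51.AJ.con_pair ?_)
          (Pool.Agent.Helper51.AJ.con_pair ?_) ⟨Sum.inr Φ₁, Or.inr rfl, Sum.inl u, Or.inl rfl, ?_⟩
        · exact h1x
        · exact h2u
        · exact h1u
      · rw [fo a hau hax]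
        exact Pool.Agent.Helper51.AJ.con_singleton _ _
  · intro a a' b b' hab h h'
    rw [Set.disjoint_left]
    intro z hza hzb
    rcases hmem a a' h z hza with ⟨ha, e⟩ | ⟨ha, e⟩ | ⟨ha, F, e, hF⟩
    · rcases hmem b b' h' z hzb with ⟨hb, e'⟩ | ⟨hb, e'⟩ | ⟨hb, F', e', hF'⟩
      · exact hab (Sum.inl_injective (e.symm.trans e'))
      · rcases e' with e' | e' | e'
        · rw [e] at e'; cases e'
        · rw [e] at e'; exact ha (Sum.inl_injective e')
        · rw [e] at e'; cases e'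
      · rw [e] at e'; cases e'
    · rcases hmem b b' h' z hzb with ⟨hb, e'⟩ | ⟨hb, e'⟩ | ⟨hb, F', e', hF'⟩
      · rcases e with e | e | e
        · rw [e'] at e; cases e
        · rw [e'] at e; exact hb (Sum.inl_injective e)
        · rw [e'] at e; cases e
      · exact hab (ha.trans hb.symm)
      · rcases e with e | e | e
        · rw [e] at e'
          have := Sum.inr_injective e'
          exact hF' (this ▸ h1u)
        · rw [e] at e'; cases e'
        · rw [e] at e'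
          have := Sum.inr_injective e'
          exact hF' (this ▸ h2u)
    · rcases hmem b b' h' z hzb with ⟨hb, e'⟩ | ⟨hb, e'⟩ | ⟨hb, F', e', hF'⟩
      · rw [e] at e'; cases e'
      · rcases e' with e' | e' | e'
        · rw [e] at e'
          have := Sum.inr_injective e'
          exact hF (this ▸ h1u)
        · rw [e] at e'; cases e'
        · rw [e] at e'
          have := Sum.inr_injective e'
          exact hF (this ▸ h2u)
      · exact hab (ha.trans hb.symm)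
  · intro a a' h
    rcases h with ⟨h, ha, ha'⟩ | ⟨h1, h2, h3⟩ | ⟨h1, h2, h3⟩
    · rcases h with h | ⟨_, ⟨e1, e2⟩ | ⟨e1, e2⟩⟩
      · exact ⟨Sum.inl a, hil a ha.2, Sum.inl a', hil a' ha'.2, ⟨h, ha.1, ha'.1⟩⟩
      · subst e1 e2
        refine ⟨Sum.inr Φ₂, ?_, Sum.inl a', hil a' ha'.2, h2y⟩
        rw [fx]
        exact Or.inr (Or.inr rfl)
      · subst e1 e2
        refine ⟨Sum.inl a, hil a ha.2, Sum.inr Φ₂, ?_, h2y⟩
        rw [fx]
        exact Or.inr (Or.inr rfl)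
    · subst h1
      obtain ⟨F, hF, hF1, _⟩ := hSN a' h2
      refine ⟨Sum.inr F, ?_, Sum.inl a', hil a' h3, ?_⟩
      · rw [fu, hF]; exact rfl
      · change a' ∈ F.1
        rw [hF1]; exact h2
    · subst h1
      obtain ⟨F, hF, hF1, _⟩ := hSN a h2
      refine ⟨Sum.inl a, hil a h3, Sum.inr F, ?_, ?_⟩
      · rw [fu, hF]; exact rfl
      · change a ∈ F.1
        rw [hF1]; exact h2

theorem hFUE : StFAX → StFNB → StFUE := by
  intro hFAX _ V _ M U u x y hP hu hx hy hux huy hxy hnc hcx hcy hK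
  obtain ⟨Φ₁, hf1, h1u, h1x⟩ := hcx
  obtain ⟨Φ₂, hf2, h2u, h2y⟩ := hcy
  have K := fun N S hS => key M U u x y hP hu hx hux huy hxy ⟨Φ₁, hf1⟩ ⟨Φ₂, hf2⟩ h1u h1x h2u h2y N S hS
  have huU : u ∉ U \ {u} := fun h => h.2 rfl
  have hpl : Planar (rst (ae M x y) (U \ {u})) := by
    refine (nKCA V M U).2.2.2.2.2.1 _ _ ?_ (K ∅ ∅ (Or.inl rfl))
    intro a b hab
    exact Or.inl hab
  have hB : ∀ F, IsFace M U F → u ∉ F → IsFace (ae M x y) (U \ {u}) F := by
    intro F hF huF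
    obtain ⟨fa, fb, _, fd, _, _⟩ := hFAX V M U F hF
    have hsub : F ⊆ U \ {u} := fun t ht => ⟨fa ht, fun h => huF (h ▸ ht)⟩
    obtain ⟨m, c, hc, hFc, _⟩ := nTUT V (ae M x y) (U \ {u}) F u hK hsub fb huU
      (K F {Sum.inr ⟨F, hF⟩} (Or.inr ⟨⟨F, hF⟩, rfl, rfl, huF⟩))
    have hface : IsFace (ae M x y) (U \ {u}) (Set.range c) := ⟨m, c, hc, rfl⟩
    have hne : F.Nonempty := by
      rw [Set.nonempty_iff_ne_empty]
      rintro rfl
      rw [Set.ncard_empty] at fb
      omega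
    have heq := (hFAX V (ae M x y) (U \ {u}) (Set.range c) hface).2.2.2.2.2 F hFc hne (by
      intro a ha
      obtain ⟨b, hb, d, hd, hbd, _, _, hn⟩ := fd a ha
      exact ⟨b, hb, d, hd, hbd, Or.inl ((hn b hb).2 (Or.inl rfl)), Or.inl ((hn d hd).2 (Or.inr rfl))⟩)
    rw [heq]
    exact hface
  refine ⟨hpl, hB, ?_⟩
  intro F' hF'
  by_cases hall : ∀ t ∈ F', Cof M U u t
  · exact Or.inr hall
  · left
    push Not at hall
    obtain ⟨t, ht, hnt⟩ := hall
    obtain ⟨fa, _, _, fd, _, _⟩ := hFAX V (ae M x y) (U \ {u}) F' hF'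
    obtain ⟨t', ht', d, hd, _, htt', _, hn⟩ := fd t ht
    have htx : t ≠ x := fun h => hnt (h ▸ ⟨Φ₁, hf1, h1u, h1x⟩)
    have hty : t ≠ y := fun h => hnt (h ▸ ⟨Φ₂, hf2, h2u, h2y⟩)
    have hadj : M.Adj t t' := by
      rcases (hn t' ht').2 (Or.inl rfl) with h | ⟨_, ⟨h, _⟩ | ⟨h, _⟩⟩
      · exact h
      · exact absurd h htx
      · exact absurd h hty
    obtain ⟨F₁, F₂, g1, g2, g12, a1, b1, a2, b2⟩ := nEDF V M U t t' hP.1 hP.2 (fa ht).1 (fa ht').1 hadj
    have u1 : u ∉ F₁ := fun h => hnt ⟨F₁, g1, h, a1⟩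
    have u2 : u ∉ F₂ := fun h => hnt ⟨F₂, g2, h, a2⟩
    by_cases e1 : F' = F₁
    · rw [e1]; exact ⟨g1, u1⟩
    · by_cases e2 : F' = F₂
      · rw [e2]; exact ⟨g2, u2⟩
      · exact absurd ((nFPA V (ae M x y) (U \ {u}) hK hpl).2.2 F' F₁ F₂ hF' (hB F₁ g1 u1) (hB F₂ g2 u2) e1 g12 e2 t t'
          hadj.ne ht ht' a1 b1 a2 b2) id

end Pool.Agent.Helper4.MA
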